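import Pool.Agent.helper4.NF.SpecB

/-!
# Project nf (MP_4467b5_nt): LSC, the dual large sieve at separated points
-/

set_option autoImplicit false

open Complex MeasureTheory

namespace Pool.Agent.NF

open Pool.Agent.helper84.DM Pool.Agent.helper78.ED Pool.Agent.DH Pool.Agent.ZD

theorem LSC_hasDeriv (W : Finset ℝ) (f : ℝ → ℂ) (x : ℝ) :
    HasDerivAt (fun x : ℝ => xf W f x) (xf W (fun t => ((t : ℂ) * I) * f t) x) x := by
  unfold xf
  refine HasDerivAt.fun_sum fun t _ => ?_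
  have h1 : HasDerivAt (fun x : ℝ => ((t * x : ℝ) : ℂ)) ((t : ℝ) : ℂ) x := by
    have h := ((hasDerivAt_id x).const_mul t).ofReal_comp
    simpa using h
  have h2 : HasDerivAt (fun x : ℝ => ex (t * x)) (ex (t * x) * ((t : ℂ) * I)) x := by
    unfold ex
    exact (h1.mul_const I).cexp
  have h3 := h2.const_mul (f t)
  have e : f t * (ex (t * x) * ((t : ℂ) * I)) = ((t : ℂ) * I) * f t * ex (t * x) := by ring
  rwa [e] at h3

theorem LSC_cont (W : Finset ℝ) (f : ℝ → ℂ) : Continuous (fun x : ℝ => xf W f x) :=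
  continuous_iff_continuousAt.mpr fun x => (LSC_hasDeriv W f x).continuousAt

/-- disjoint intervals. -/
theorem LSC_disj (J : Finset ℝ) (η ℓ : ℝ) (hℓ : 0 < ℓ) (hℓη : 2 * ℓ ≤ η) (hℓ1 : ℓ ≤ 1)
    (hJ : ∀ x ∈ J, |x| ≤ 20) (hs : ∀ x ∈ J, ∀ x' ∈ J, x ≠ x' → η ≤ |x - x'|) (g : ℝ → ℝ)
    (hg : Continuous g) (hg0 : ∀ x, 0 ≤ g x) :
    ∑ x ∈ J, ∫ y in (x - ℓ)..(x + ℓ), g y ≤ ∫ y in (-21 : ℝ)..21, g y := by
  have hint : ∀ a b : ℝ, IntegrableOn g (Set.Ioc a b) := fun a b =>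
    (hg.integrableOn_Icc (a := a) (b := b)).mono_set Set.Ioc_subset_Icc_self
  have h1 : ∀ t ∈ J, ∫ x in (t - ℓ)..(t + ℓ), g x = ∫ x in Set.Ioc (t - ℓ) (t + ℓ), g x :=
    fun t _ => intervalIntegral.integral_of_le (by linarith)
  rw [Finset.sum_congr rfl h1, intervalIntegral.integral_of_le (by norm_num)]
  have hdis : Set.Pairwise (↑J : Set ℝ)
      (Function.onFun Disjoint fun t : ℝ => Set.Ioc (t - ℓ) (t + ℓ)) := by
    intro t ht t' ht' hne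
    have h2 := hs t ht t' ht' hne
    show Disjoint (Set.Ioc (t - ℓ) (t + ℓ)) (Set.Ioc (t' - ℓ) (t' + ℓ))
    rw [Set.disjoint_left]
    rintro x ⟨hx1, hx2⟩ ⟨hx3, hx4⟩
    have h3 : |t - t'| < 2 * ℓ := by
      rw [abs_lt]
      constructor <;> linarith
    linarith
  rw [← MeasureTheory.integral_biUnion_finset J (fun t _ => measurableSet_Ioc) hdis
    (fun t _ => hint _ _)]
  apply MeasureTheory.setIntegral_mono_set (hint _ _)
  · exact Filter.Eventually.of_forall hg0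
  · apply Filter.Eventually.of_forall
    intro x hx
    have hx' : x ∈ ⋃ t ∈ J, Set.Ioc (t - ℓ) (t + ℓ) := hx
    simp only [Set.mem_iUnion] at hx'
    obtain ⟨t, ht, hx1, hx2⟩ := hx'
    have h4 := abs_le.mp (hJ t ht)
    show x ∈ Set.Ioc (-21 : ℝ) 21
    constructor <;> linarith [h4.1, h4.2]

theorem LSC (hBG1 : BG1_stmt) (hQZC : QZC_stmt) : LSC_stmt := by
  obtain ⟨C, hC, hQ⟩ := hQZC 21 (by norm_num)
  refine ⟨6 * C, by positivity, ?_⟩
  intro T η W f J hT hη hη1 hW hJ hs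
  obtain ⟨hW1, hW2⟩ := hW
  have hsep : ∀ t ∈ W, ∀ t' ∈ W, t ≠ t' → 1 ≤ |t - t'| := by
    intro t ht t' ht' hne
    have h := hW2 t ht t' ht' hne
    rwa [Real.rpow_zero] at h
  set f' : ℝ → ℂ := fun t => ((t : ℂ) * I) * f t with hf'
  set ℓ : ℝ := min (η / 2) (1 / T) with hℓdef
  have hT0 : 0 < T := by linarith
  have hℓ : 0 < ℓ := lt_min (by linarith) (by positivity)
  have hℓ1 : ℓ ≤ η / 2 := min_le_left _ _
  have hℓ2 : ℓ ≤ 1 / T := min_le_right _ _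
  have hS0 : 0 ≤ ∑ t ∈ W, ‖f t‖ ^ 2 := Finset.sum_nonneg fun t _ => by positivity
  -- the two integrals
  have hI1 := hQ W f hsep
  have hI2 := hQ W f' hsep
  have hf'le : ∑ t ∈ W, ‖f' t‖ ^ 2 ≤ 4 * T ^ 2 * ∑ t ∈ W, ‖f t‖ ^ 2 := by
    rw [Finset.mul_sum]
    refine Finset.sum_le_sum fun t ht => ?_
    have h1 := hW1 t ht
    have h2 : ‖f' t‖ = |t| * ‖f t‖ := by
      rw [hf']
      simp only [norm_mul, Complex.norm_real, Complex.norm_I, mul_one, Real.norm_eq_abs]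
    have h3 : |t| ≤ 2 * T := by
      rw [abs_le]
      constructor <;> linarith [h1.1, h1.2]
    rw [h2, mul_pow]
    have h4 : |t| ^ 2 ≤ (2 * T) ^ 2 := pow_le_pow_left₀ (abs_nonneg t) h3 2
    calc |t| ^ 2 * ‖f t‖ ^ 2 ≤ (2 * T) ^ 2 * ‖f t‖ ^ 2 :=
          mul_le_mul_of_nonneg_right h4 (by positivity)
      _ = 4 * T ^ 2 * ‖f t‖ ^ 2 := by ring
  -- Gallagher
  have hc1 := LSC_cont W f
  have hc2 := LSC_cont W f'
  set g : ℝ → ℝ := fun x => 1 / ℓ * ‖xf W f x‖ ^ 2 + ℓ * ‖xf W f' x‖ ^ 2 with hg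
  have hgc : Continuous g := by
    rw [hg]
    fun_prop
  have hg0 : ∀ x, 0 ≤ g x := fun x => by
    rw [hg]
    positivity
  have hstep : ∀ x ∈ J, ‖xf W f x‖ ^ 2 ≤ ∫ y in (x - ℓ)..(x + ℓ), g y := fun x _ =>
    hBG1 (fun x => xf W f x) (fun x => xf W f' x) (fun x => LSC_hasDeriv W f x) hc2 x ℓ hℓ
  have hsum : ∑ x ∈ J, ‖xf W f x‖ ^ 2 ≤ ∫ y in (-21 : ℝ)..21, g y :=
    (Finset.sum_le_sum hstep).trans (LSC_disj J η ℓ hℓ (by linarith) (by linarith) hJ hs g hgc hg0)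
  have hi1 : IntervalIntegrable (fun x => 1 / ℓ * ‖xf W f x‖ ^ 2) volume (-21) 21 :=
    (Continuous.intervalIntegrable (by fun_prop) _ _)
  have hi2 : IntervalIntegrable (fun x => ℓ * ‖xf W f' x‖ ^ 2) volume (-21) 21 :=
    (Continuous.intervalIntegrable (by fun_prop) _ _)
  have hsplit : ∫ y in (-21 : ℝ)..21, g y =
      1 / ℓ * (∫ y in (-21 : ℝ)..21, ‖xf W f y‖ ^ 2) +
        ℓ * ∫ y in (-21 : ℝ)..21, ‖xf W f' y‖ ^ 2 := by
    rw [hg, intervalIntegral.integral_add hi1 hi2, intervalIntegral.integral_const_mul,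
      intervalIntegral.integral_const_mul]
  rw [hsplit] at hsum
  have h5 : 1 / ℓ * (∫ y in (-21 : ℝ)..21, ‖xf W f y‖ ^ 2) ≤
      (T + 2 / η) * (C * ∑ t ∈ W, ‖f t‖ ^ 2) := by
    have h6 : 1 / ℓ ≤ T + 2 / η := by
      rcases min_choice (η / 2) (1 / T) with h | h
      · rw [hℓdef, h]
        have : 1 / (η / 2) = 2 / η := by field_simp
        rw [this]
        linarith
      · rw [hℓdef, h, one_div_one_div]
        have : 0 < 2 / η := by positivity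
        linarith
    exact mul_le_mul h6 hI1 (intervalIntegral.integral_nonneg (by norm_num) fun x _ => by positivity)
      (by positivity)
  have h7 : ℓ * (∫ y in (-21 : ℝ)..21, ‖xf W f' y‖ ^ 2) ≤
      4 * T * (C * ∑ t ∈ W, ‖f t‖ ^ 2) := by
    have h8 : (∫ y in (-21 : ℝ)..21, ‖xf W f' y‖ ^ 2) ≤ C * (4 * T ^ 2 * ∑ t ∈ W, ‖f t‖ ^ 2) :=
      hI2.trans (mul_le_mul_of_nonneg_left hf'le hC.le)
    calc ℓ * (∫ y in (-21 : ℝ)..21, ‖xf W f' y‖ ^ 2)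
        ≤ 1 / T * (C * (4 * T ^ 2 * ∑ t ∈ W, ‖f t‖ ^ 2)) :=
          mul_le_mul hℓ2 h8 (intervalIntegral.integral_nonneg (by norm_num) fun x _ => by positivity)
            (by positivity)
      _ = 4 * T * (C * ∑ t ∈ W, ‖f t‖ ^ 2) := by
          field_simp
  have h9 : (T + 2 / η) + 4 * T ≤ 6 * (T + 1 / η) := by
    have e : 2 / η = 2 * (1 / η) := by ring
    have : 0 < 1 / η := by positivity
    rw [e]
    linarith
  calc ∑ x ∈ J, ‖xf W f x‖ ^ 2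
      ≤ (T + 2 / η) * (C * ∑ t ∈ W, ‖f t‖ ^ 2) + 4 * T * (C * ∑ t ∈ W, ‖f t‖ ^ 2) := by linarith
    _ = ((T + 2 / η) + 4 * T) * (C * ∑ t ∈ W, ‖f t‖ ^ 2) := by ring
    _ ≤ 6 * (T + 1 / η) * (C * ∑ t ∈ W, ‖f t‖ ^ 2) :=
        mul_le_mul_of_nonneg_right h9 (by positivity)
    _ = 6 * C * (T + 1 / η) * ∑ t ∈ W, ‖f t‖ ^ 2 := by ring

end Pool.Agent.NF
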